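import Pool.Agent.R109.GT.A
import Pool.Agent.R109.GT.C

/-! Blow-up of the local mass of the occupation measure of a generalized Takagi function. -/

open MeasureTheory Set Filter Topology
open scoped ENNReal

namespace H516.GTQ1

open R109.GT

theorem slope_left (w : ℕ → ℤ → ℤ) (n : ℕ) (i : ℤ) :
    slope w (n + 1) (2 * i) = slope w n i + w n i := by
  have h : 2 * i / 2 = i := by omega
  have h2 : (2 * i) % 2 = 0 := by omega
  rw [R109.GT.slope, h, if_pos h2, mul_one]

theorem slope_right (w : ℕ → ℤ → ℤ) (n : ℕ) (i : ℤ) :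
    slope w (n + 1) (2 * i + 1) = slope w n i - w n i := by
  have h : (2 * i + 1) / 2 = i := by omega
  have h2 : ¬ (2 * i + 1) % 2 = 0 := by omega
  rw [R109.GT.slope, h, if_neg h2]
  ring

theorem val_left (w : ℕ → ℤ → ℤ) (n : ℕ) (i : ℤ) :
    val w (n + 1) (2 * i) = 2 * val w n i := by
  have h : 2 * i / 2 = i := by omega
  have h2 : (2 * i) % 2 = 0 := by omega
  rw [val, h, if_pos h2, add_zero]

theorem val_right (w : ℕ → ℤ → ℤ) (n : ℕ) (i : ℤ) :
    val w (n + 1) (2 * i + 1) = 2 * val w n i + (slope w n i + w n i) := by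
  have h : (2 * i + 1) / 2 = i := by omega
  have h2 : ¬ (2 * i + 1) % 2 = 0 := by omega
  rw [val, h, if_neg h2]

theorem div_chain (k : ℕ) (c i' : ℤ) (h : i' / 2 ^ k = c) : i' / 2 ^ (k + 1) = c / 2 := by
  rw [pow_succ, ← Int.ediv_ediv_of_nonneg (by positivity), h]

/-- descending from slope `-k` to slope zero -/
theorem down (w : ℕ → ℤ → ℤ) (hw : Sgn w) (k : ℕ) : ∀ (n : ℕ) (i : ℤ), slope w n i = -(k:ℤ) →
    ∃ i' : ℤ, i' / 2 ^ k = i ∧ slope w (n + k) i' = 0 ∧
      2 ^ k * (val w n i - k) ≤ val w (n + k) i' ∧ val w (n + k) i' ≤ 2 ^ k * val w n i := by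
  induction k with
  | zero => intro n i h; exact ⟨i, by simp, by simpa using h, by simp, by simp⟩
  | succ k ih =>
    intro n i h
    have e : n + (k + 1) = n + 1 + k := by omega
    have hp : (0:ℤ) < 2 ^ k := by positivity
    push_cast at h
    rcases hw n i with h1 | h1
    · have hs : slope w (n + 1) (2 * i) = -(k:ℤ) := by rw [slope_left, h, h1]; ring
      obtain ⟨i', a, b, c, d⟩ := ih (n + 1) (2 * i) hs
      rw [val_left] at c d
      refine ⟨i', ?_, ?_, ?_, ?_⟩
      · rw [div_chain k _ _ a]; omega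
      · rw [e]; exact b
      · rw [e, pow_succ]; push_cast
        nlinarith [mul_nonneg hp.le (by positivity : (0:ℤ) ≤ (k:ℤ))]
      · rw [e, pow_succ]; linarith
    · have hs : slope w (n + 1) (2 * i + 1) = -(k:ℤ) := by rw [slope_right, h, h1]; ring
      obtain ⟨i', a, b, c, d⟩ := ih (n + 1) (2 * i + 1) hs
      rw [val_right, h, h1] at c d
      refine ⟨i', ?_, ?_, ?_, ?_⟩
      · rw [div_chain k _ _ a]; omega
      · rw [e]; exact b
      · rw [e, pow_succ]; push_cast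
        nlinarith
      · rw [e, pow_succ]
        nlinarith [mul_nonneg hp.le (by positivity : (0:ℤ) ≤ (k:ℤ))]

/-- three levels below a cell of slope `-1` there is a cell whose values are inside the range -/
theorem mid (w : ℕ → ℤ → ℤ) (hw : Sgn w) (p V : ℤ) (hs : slope w 1 p = -1) (hV : val w 1 p = V) :
    ∃ (c : ℤ) (k : ℕ), k ≤ 4 ∧ c / 8 = p ∧ slope w 4 c = -(k:ℤ) ∧
      8 * V - 6 ≤ val w 4 c - k ∧ val w 4 c ≤ 8 * V - 2 := by
  have h2 : ∃ c, c / 2 = p ∧ slope w 2 c = -2 ∧ val w 2 c = 2 * V := by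
    rcases hw 1 p with h | h
    · refine ⟨2 * p + 1, by omega, ?_, ?_⟩
      · rw [slope_right, hs, h]; norm_num
      · rw [val_right, hs, h, hV]; ring
    · refine ⟨2 * p, by omega, ?_, ?_⟩
      · rw [slope_left, hs, h]; norm_num
      · rw [val_left, hV]
  obtain ⟨c2, hc2, s2, v2⟩ := h2
  have h3 : ∃ c, c / 2 = c2 ∧ slope w 3 c = -3 ∧ (val w 3 c = 4 * V - 1 ∨ val w 3 c = 4 * V) := by
    rcases hw 2 c2 with h | h
    · refine ⟨2 * c2 + 1, by omega, ?_, ?_⟩
      · rw [slope_right, s2, h]; norm_num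
      · left; rw [val_right, s2, h, v2]; ring
    · refine ⟨2 * c2, by omega, ?_, ?_⟩
      · rw [slope_left, s2, h]; norm_num
      · right; rw [val_left, v2]; ring
  obtain ⟨c3, hc3, s3, v3⟩ := h3
  rcases v3 with v3 | v3
  · rcases hw 3 c3 with h | h
    · refine ⟨2 * c3, 2, by norm_num, by omega, ?_, ?_, ?_⟩
      · rw [slope_left, s3, h]; norm_num
      · rw [val_left, v3]; push_cast; linarith
      · rw [val_left, v3]; linarith
    · refine ⟨2 * c3, 4, by norm_num, by omega, ?_, ?_, ?_⟩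
      · rw [slope_left, s3, h]; norm_num
      · rw [val_left, v3]; push_cast; linarith
      · rw [val_left, v3]; linarith
  · rcases hw 3 c3 with h | h
    · refine ⟨2 * c3 + 1, 4, by norm_num, by omega, ?_, ?_, ?_⟩
      · rw [slope_right, s3, h]; norm_num
      · rw [val_right, v3, s3, h]; push_cast; linarith
      · rw [val_right, v3, s3, h]; linarith
    · refine ⟨2 * c3 + 1, 2, by norm_num, by omega, ?_, ?_, ?_⟩
      · rw [slope_right, s3, h]; norm_num
      · rw [val_right, v3, s3, h]; push_cast; linarith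
      · rw [val_right, v3, s3, h]; linarith

/-- A zero-slope cell of bounded level whose whole range is covered by the other half of the
starting cell. -/
theorem exists_inner (w : ℕ → ℤ → ℤ) (hw : Sgn w) (i : ℤ) :
    ∃ (j : ℤ) (b : ℕ) (i' : ℤ), b ≤ 7 ∧ j / 2 = i ∧ i' / 2 ^ (b + 1) = i ∧ i' / 2 ^ b ≠ j ∧
      slope w 1 j = 1 ∧ (val w 1 j = 0 ∨ val w 1 j = -1) ∧ slope w (b + 1) i' = 0 ∧
      2 ^ b * val w 1 j + 1 ≤ val w (b + 1) i' ∧
      val w (b + 1) i' + 1 ≤ 2 ^ b * (val w 1 j + 1) := by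
  have h1 : ∃ j p : ℤ, j / 2 = i ∧ p / 2 = i ∧ p ≠ j ∧ slope w 1 j = 1 ∧ slope w 1 p = -1 ∧
      (val w 1 j = 0 ∨ val w 1 j = -1) ∧ val w 1 p = val w 1 j + 1 := by
    have s0 : slope w 0 i = 0 := rfl
    have v0 : val w 0 i = 0 := rfl
    rcases hw 0 i with h | h
    · refine ⟨2 * i, 2 * i + 1, by omega, by omega, by omega, ?_, ?_, ?_, ?_⟩
      · rw [slope_left, s0, h]; norm_num
      · rw [slope_right, s0, h]; norm_num
      · left; rw [val_left, v0]; norm_num
      · rw [val_left, val_right, v0, s0, h]; norm_num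
    · refine ⟨2 * i + 1, 2 * i, by omega, by omega, by omega, ?_, ?_, ?_, ?_⟩
      · rw [slope_right, s0, h]; norm_num
      · rw [slope_left, s0, h]; norm_num
      · right; rw [val_right, v0, s0, h]; norm_num
      · rw [val_left, val_right, v0, s0, h]; norm_num
  obtain ⟨j, p, hj, hp, hpj, sj, sp, vj, vp⟩ := h1
  obtain ⟨c, k, hk, hc, sc, vc1, vc2⟩ := mid w hw p _ sp vp
  obtain ⟨i', hi', si', vi1, vi2⟩ := down w hw k 4 c sc
  have e : 4 + k = (3 + k) + 1 := by omega
  have hdiv : i' / 2 ^ (3 + k) = p := by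
    have : (2:ℤ) ^ (3 + k) = 2 ^ k * 8 := by rw [pow_add]; ring
    rw [this, ← Int.ediv_ediv_of_nonneg (by positivity), hi', hc]
  have hpk : (1:ℤ) ≤ 2 ^ k := one_le_pow₀ (by norm_num)
  have e8 : (2:ℤ) ^ (3 + k) = 8 * 2 ^ k := by rw [pow_add]; norm_num
  refine ⟨j, 3 + k, i', by omega, hj, ?_, ?_, sj, vj, ?_, ?_, ?_⟩
  · rw [div_chain _ _ _ hdiv, hp]
  · rw [hdiv]; exact hpj
  · rw [← e]; exact si'
  · rw [← e, e8]
    have := mul_le_mul_of_nonneg_left vc1 (by positivity : (0:ℤ) ≤ 2 ^ k)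
    nlinarith
  · rw [← e, e8]
    have := mul_le_mul_of_nonneg_left vc2 (by positivity : (0:ℤ) ≤ 2 ^ k)
    nlinarith

/-- following a line through a value `y` -/
theorem follow (w : ℕ → ℤ → ℤ) (hw : Sgn w) (m : ℕ) : ∀ (n : ℕ) (i : ℤ) (y : ℝ),
    1 ≤ slope w n i → (val w n i : ℝ) ≤ y → y ≤ (val w n i : ℝ) + slope w n i →
    ∃ i' : ℤ, i' / 2 ^ m = i ∧ 1 ≤ slope w (n + m) i' ∧ slope w (n + m) i' ≤ slope w n i + m ∧
      (val w (n + m) i' : ℝ) ≤ 2 ^ m * y ∧
      2 ^ m * y ≤ (val w (n + m) i' : ℝ) + slope w (n + m) i' := by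
  induction m with
  | zero =>
    intro n i y h1 h2 h3
    exact ⟨i, by simp, by simpa using h1, by simp, by simpa using h2, by simpa using h3⟩
  | succ m ih =>
    intro n i y h1 h2 h3
    have e : n + (m + 1) = n + 1 + m := by omega
    have hw' : -1 ≤ w n i ∧ w n i ≤ 1 := by
      rcases hw n i with h | h <;> rw [h] <;> norm_num
    have hL := slope_left w n i
    have hR := slope_right w n i
    have vL := val_left w n i
    have vR := val_right w n i
    have key : ∃ c : ℤ, c / 2 = i ∧ 1 ≤ slope w (n + 1) c ∧ slope w (n + 1) c ≤ slope w n i + 1 ∧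
        (val w (n + 1) c : ℝ) ≤ 2 * y ∧ 2 * y ≤ (val w (n + 1) c : ℝ) + slope w (n + 1) c := by
      by_cases hc : 1 ≤ slope w n i + w n i ∧
          2 * y ≤ 2 * (val w n i : ℝ) + ((slope w n i + w n i : ℤ) : ℝ)
      · refine ⟨2 * i, by omega, by omega, by omega, ?_, ?_⟩
        · rw [vL]; push_cast; linarith
        · rw [vL, hL]; push_cast; have := hc.2; push_cast at this; linarith
      · have hge : 1 ≤ slope w n i - w n i := by
          by_contra hcon
          apply hc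
          have hs1 : slope w n i = 1 := by omega
          have hw1 : w n i = 1 := by omega
          refine ⟨by omega, ?_⟩
          rw [hs1, hw1]
          rw [hs1] at h3
          push_cast at h3 ⊢
          linarith
        refine ⟨2 * i + 1, by omega, by omega, by omega, ?_, ?_⟩
        · rw [vR]
          push_cast
          by_cases h5 : 1 ≤ slope w n i + w n i
          · have h6 : ¬ 2 * y ≤ 2 * (val w n i : ℝ) + ((slope w n i + w n i : ℤ) : ℝ) :=
              fun h => hc ⟨h5, h⟩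
            push_cast at h6
            linarith
          · have h7 : slope w n i + w n i ≤ 0 := by omega
            have h8 : ((slope w n i + w n i : ℤ) : ℝ) ≤ 0 := by exact_mod_cast h7
            push_cast at h8
            linarith
        · rw [vR, hR]
          push_cast
          linarith
    obtain ⟨c, hc, s1, s2, v1, v2⟩ := key
    obtain ⟨i', a, b, b2, d, f⟩ := ih (n + 1) c (2 * y) s1 v1 v2
    refine ⟨i', ?_, ?_, ?_, ?_, ?_⟩
    · rw [div_chain m _ _ a, hc]
    · rw [e]; exact b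
    · rw [e]; push_cast; omega
    · rw [e, pow_succ, mul_assoc]; exact d
    · rw [e, pow_succ, mul_assoc]; exact f

/-- points of the cell whose value is within `r` of `y` -/
def B (w : ℕ → ℤ → ℤ) (n : ℕ) (i : ℤ) (y r : ℝ) : Set ℝ := {x | x ∈ J n i ∧ |tak w x - y| ≤ r}

theorem meas_B (w : ℕ → ℤ → ℤ) (hw : Sgn w) (n : ℕ) (i : ℤ) (y r : ℝ) :
    MeasurableSet (B w n i y r) := by
  have h : MeasurableSet {x : ℝ | |tak w x - y| ≤ r} := by
    apply IsClosed.measurableSet
    exact isClosed_le (((cont w hw).sub continuous_const).abs) continuous_const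
  exact (PC.measurableSet_J n i).inter h

theorem line_vol (w : ℕ → ℤ → ℤ) (hw : Sgn w) (N : ℕ) (i : ℤ) (y : ℝ) (hs : 1 ≤ slope w N i)
    (h1 : (val w N i : ℝ) ≤ 2 ^ N * y) (h2 : 2 ^ N * y ≤ (val w N i : ℝ) + slope w N i) :
    ENNReal.ofReal (1 / (2 * (slope w N i : ℝ)) / 2 ^ N) ≤ volume (B w N i y (2 / 2 ^ N)) := by
  have hp : (0:ℝ) < 2 ^ N := by positivity
  set s : ℝ := (slope w N i : ℝ) with hsdef
  have hs1 : (1:ℝ) ≤ s := by rw [hsdef]; exact_mod_cast hs
  have hs0 : (0:ℝ) < s := by linarith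
  set u0 : ℝ := i + (2 ^ N * y - val w N i) / s with hu0
  set d : ℝ := 1 / (2 * s) with hd
  have hd0 : 0 < d := by rw [hd]; positivity
  have hd1 : d ≤ 1 / 2 := by
    rw [hd]; apply one_div_le_one_div_of_le (by norm_num); linarith
  have hsd : s * d = 1 / 2 := by rw [hd]; field_simp
  have hu1 : (i:ℝ) ≤ u0 := by
    rw [hu0]
    have : 0 ≤ (2 ^ N * y - val w N i) / s := div_nonneg (by linarith) hs0.le
    linarith
  have hu2 : u0 ≤ (i:ℝ) + 1 := by
    rw [hu0]
    have : (2 ^ N * y - val w N i) / s ≤ 1 := by rw [div_le_one hs0]; linarith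
    linarith
  set L : ℝ := max (i:ℝ) (u0 - d) with hL
  have hsub : Ico (L / 2 ^ N) ((L + d) / 2 ^ N) ⊆ B w N i y (2 / 2 ^ N) := by
    intro x hx
    obtain ⟨hx1, hx2⟩ := hx
    rw [div_le_iff₀ hp, mul_comm] at hx1
    rw [lt_div_iff₀ hp, mul_comm] at hx2
    have hLi : (i:ℝ) ≤ L := le_max_left _ _
    have hLu : u0 - d ≤ L := le_max_right _ _
    have hLd : L ≤ u0 := max_le hu1 (by linarith)
    have hLe : L + d ≤ i + 1 := by
      rcases max_choice (i:ℝ) (u0 - d) with h | h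
      · rw [hL, h]; linarith
      · rw [hL, h]; linarith
    have hfl : ⌊(2:ℝ) ^ N * x⌋ = i := by
      rw [Int.floor_eq_iff]
      exact ⟨by linarith, by linarith⟩
    refine ⟨hfl, ?_⟩
    have hS : S w N x = slope w N i := by unfold S; rw [hfl]
    rw [tak_eq w hw N x, hS, hfl, ← hsdef]
    have hy : y = (2 ^ N * y) / 2 ^ N := by field_simp
    rw [hy, ← sub_div, abs_div, abs_of_pos hp]
    apply div_le_div_of_nonneg_right _ hp.le
    have hb := bound (fun m => w (N + m)) (fun m k => hw (N + m) k) ((2:ℝ) ^ N * x)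
    have hyu : 2 ^ N * y = val w N i + s * (u0 - i) := by
      rw [hu0]; field_simp; ring
    have hrad : 2 ^ N * (2 ^ N * y / 2 ^ N) = 2 ^ N * y := by field_simp
    rw [abs_le] at hb ⊢
    have k1 : s * (2 ^ N * x - u0) ≤ s * d := mul_le_mul_of_nonneg_left (by linarith) hs0.le
    have k2 : s * (-d) ≤ s * (2 ^ N * x - u0) := mul_le_mul_of_nonneg_left (by linarith) hs0.le
    constructor <;> nlinarith
  refine le_trans (le_of_eq ?_) (measure_mono hsub)
  rw [Real.volume_Ico]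
  congr 1
  field_simp
  ring

theorem scale_vol (w : ℕ → ℤ → ℤ) (hw : Sgn w) (n : ℕ) (i : ℤ) (hs : slope w n i = 0)
    (y r : ℝ) :
    volume (B w n i ((val w n i + y) / 2 ^ n) (r / 2 ^ n)) =
      ENNReal.ofReal (1 / 2 ^ n) * volume (B (fun m => w (n + m)) 0 i y r) := by
  have hp : (0:ℝ) < 2 ^ n := by positivity
  have hset : B w n i ((val w n i + y) / 2 ^ n) (r / 2 ^ n) =
      (fun x : ℝ => (2:ℝ) ^ n * x) ⁻¹' (B (fun m => w (n + m)) 0 i y r) := by
    ext x
    simp only [B, J, mem_ofPred_eq, mem_preimage, pow_zero, one_mul]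
    constructor
    · rintro ⟨h1, h2⟩
      refine ⟨h1, ?_⟩
      have hS : S w n x = 0 := by unfold S; rw [h1, hs]
      rw [tak_eq w hw n x, hS, h1, Int.cast_zero, zero_mul, add_zero, ← sub_div, abs_div,
        abs_of_pos hp, div_le_div_iff_of_pos_right hp] at h2
      have e : (val w n i : ℝ) + tak (fun m => w (n + m)) (2 ^ n * x) - (val w n i + y) =
        tak (fun m => w (n + m)) (2 ^ n * x) - y := by ring
      rw [e] at h2
      exact h2
    · rintro ⟨h1, h2⟩
      refine ⟨h1, ?_⟩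
      have hS : S w n x = 0 := by unfold S; rw [h1, hs]
      rw [tak_eq w hw n x, hS, h1, Int.cast_zero, zero_mul, add_zero, ← sub_div, abs_div,
        abs_of_pos hp, div_le_div_iff_of_pos_right hp]
      have e : (val w n i : ℝ) + tak (fun m => w (n + m)) (2 ^ n * x) - (val w n i + y) =
        tak (fun m => w (n + m)) (2 ^ n * x) - y := by ring
      rw [e]
      exact h2
  rw [hset, Real.volume_preimage_mul_left hp.ne', abs_of_pos (inv_pos.mpr hp), one_div]

/-- every generalized Takagi function has, at some scale `2^-t` with `t ≤ T`, an interval of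
length `4 * 2^-t` of local mass at least `A * 2^-t` -/
def Q (T : ℕ) (A : ℝ) : Prop := ∀ w : ℕ → ℤ → ℤ, Sgn w → ∀ i : ℤ, ∃ y : ℝ, |y| ≤ 1 ∧
  ∃ t : ℕ, t ≤ T ∧ ENNReal.ofReal (A / 2 ^ t) ≤ volume (B w 0 i y (2 / 2 ^ t))

theorem Q_step (T : ℕ) (A : ℝ) (h : Q T A) : Q (T + 8) (A + 1 / (2 * (T + 8))) := by
  intro w hw i
  obtain ⟨j, b, i', hb, hj, hi', hne, sj, vj, si', hlo, hhi⟩ := exists_inner w hw i
  obtain ⟨y', hy', t, ht, hvol⟩ := h (fun m => w (b + 1 + m)) (fun m k => hw (b + 1 + m) k) i'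
  rw [abs_le] at hy'
  have hpb : (0:ℝ) < 2 ^ b := by positivity
  have hloR : (2:ℝ) ^ b * val w 1 j + 1 ≤ val w (b + 1) i' := by exact_mod_cast hlo
  have hhiR : (val w (b + 1) i' : ℝ) + 1 ≤ 2 ^ b * (val w 1 j + 1) := by exact_mod_cast hhi
  set Y : ℝ := (val w (b + 1) i' + y') / 2 ^ (b + 1) with hY
  have h2Y : 2 * Y = (val w (b + 1) i' + y') / 2 ^ b := by
    rw [hY, pow_succ]; field_simp
  have hY1 : (val w 1 j : ℝ) ≤ 2 * Y := by
    rw [h2Y, le_div_iff₀ hpb]; linarith [mul_comm (val w 1 j : ℝ) ((2:ℝ) ^ b)]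
  have hY2 : 2 * Y ≤ (val w 1 j : ℝ) + slope w 1 j := by
    rw [h2Y, sj, div_le_iff₀ hpb]; push_cast
    linarith [mul_comm ((val w 1 j : ℝ) + 1) ((2:ℝ) ^ b)]
  obtain ⟨j', hj', sj1, sj2, vj1, vj2⟩ := follow w hw (b + t) 1 j (2 * Y) (by omega) hY1 hY2
  have hN : b + 1 + t = 1 + (b + t) := by omega
  refine ⟨Y, ?_, b + 1 + t, by omega, ?_⟩
  · rw [sj] at hY2
    rw [abs_le]
    rcases vj with hv | hv <;> rw [hv] at hY1 hY2 <;> push_cast at hY1 hY2 <;>
      constructor <;> linarith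
  have hpow : (2:ℝ) ^ (1 + (b + t)) * Y = 2 ^ (b + t) * (2 * Y) := by rw [pow_add]; ring
  have hline := line_vol w hw (1 + (b + t)) j' Y sj1 (by rw [hpow]; exact vj1)
    (by rw [hpow]; exact vj2)
  have hscale := scale_vol w hw (b + 1) i' si' y' (2 / 2 ^ t)
  rw [← hY] at hscale
  have hrad : (2:ℝ) / 2 ^ t / 2 ^ (b + 1) = 2 / 2 ^ (1 + (b + t)) := by
    rw [div_div, ← pow_add]; congr 2; omega
  rw [hrad] at hscale
  rw [hN]
  have hdisj : Disjoint (B w (b + 1) i' Y (2 / 2 ^ (1 + (b + t))))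
      (B w (1 + (b + t)) j' Y (2 / 2 ^ (1 + (b + t)))) := by
    rw [Set.disjoint_left]
    rintro x ⟨hx1, -⟩ ⟨hx2, -⟩
    have e1 := floor_div 1 b x
    have e2 := floor_div 1 (b + t) x
    have hx1' : ⌊(2:ℝ) ^ (1 + b) * x⌋ = i' := by rw [add_comm]; exact hx1
    have hx2' : ⌊(2:ℝ) ^ (1 + (b + t)) * x⌋ = j' := hx2
    rw [hx1'] at e1
    rw [hx2', hj'] at e2
    exact hne (e1.symm.trans e2)
  have hsub : B w (b + 1) i' Y (2 / 2 ^ (1 + (b + t))) ∪
      B w (1 + (b + t)) j' Y (2 / 2 ^ (1 + (b + t))) ⊆ B w 0 i Y (2 / 2 ^ (1 + (b + t))) := by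
    rintro x (⟨hx1, hx3⟩ | ⟨hx2, hx3⟩)
    · refine ⟨?_, hx3⟩
      have e1 := floor_div 0 (b + 1) x
      have hx1' : ⌊(2:ℝ) ^ (0 + (b + 1)) * x⌋ = i' := by rw [zero_add]; exact hx1
      rw [hx1', hi'] at e1
      exact e1
    · refine ⟨?_, hx3⟩
      have e1 := floor_div 0 1 x
      have e2 := floor_div 1 (b + t) x
      have hx2' : ⌊(2:ℝ) ^ (1 + (b + t)) * x⌋ = j' := hx2
      rw [hx2', hj'] at e2
      rw [zero_add, e2, pow_one, hj] at e1
      exact e1
  refine le_trans ?_ (measure_mono hsub)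
  rw [measure_union hdisj (meas_B w hw _ _ _ _), hscale]
  have hfirst : ENNReal.ofReal (1 / 2 ^ (b + 1) * (A / 2 ^ t)) ≤
      ENNReal.ofReal (1 / 2 ^ (b + 1)) * volume (B (fun m => w (b + 1 + m)) 0 i' y' (2 / 2 ^ t)) := by
    rw [ENNReal.ofReal_mul (by positivity)]
    gcongr
  refine le_trans ?_ (add_le_add hfirst hline)
  refine le_trans ?_ ENNReal.ofReal_add_le
  apply ENNReal.ofReal_le_ofReal
  have hsR : (slope w (1 + (b + t)) j' : ℝ) ≤ T + 8 := by
    have : slope w (1 + (b + t)) j' ≤ (T:ℤ) + 8 := by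
      rw [sj] at sj2; push_cast at sj2; omega
    exact_mod_cast this
  have hsR1 : (1:ℝ) ≤ (slope w (1 + (b + t)) j' : ℝ) := by exact_mod_cast sj1
  have hc : 1 / (2 * ((T:ℝ) + 8)) ≤ 1 / (2 * (slope w (1 + (b + t)) j' : ℝ)) := by
    apply one_div_le_one_div_of_le (by linarith); linarith
  have e3 : (1:ℝ) / 2 ^ (b + 1) * (A / 2 ^ t) = A / 2 ^ (1 + (b + t)) := by
    have e4 : b + 1 + t = 1 + (b + t) := by omega
    rw [div_mul_div_comm, one_mul, ← pow_add, e4]
  rw [e3, ← add_div]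
  apply div_le_div_of_nonneg_right _ (by positivity)
  linarith

theorem Q_iter (k : ℕ) : Q (8 * k) (∑ i ∈ Finset.range k, 1 / (2 * (8 * (i:ℝ) + 8))) := by
  induction k with
  | zero =>
    intro w hw i
    refine ⟨0, by simp, 0, by simp, by simp⟩
  | succ k ih =>
    have h := Q_step _ _ ih
    rw [Finset.sum_range_succ]
    have e : 8 * (k + 1) = 8 * k + 8 := by ring
    rw [e]
    push_cast at h
    exact h

theorem Q_unbounded (H : ℝ) : ∃ T : ℕ, Q T H := by
  have h := Real.tendsto_sum_range_one_div_nat_succ_atTop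
  obtain ⟨k, hk⟩ := (h.eventually_ge_atTop (16 * H)).exists
  refine ⟨8 * k, ?_⟩
  intro w hw i
  obtain ⟨y, hy, t, ht, hv⟩ := Q_iter k w hw i
  refine ⟨y, hy, t, ht, le_trans ?_ hv⟩
  apply ENNReal.ofReal_le_ofReal
  apply div_le_div_of_nonneg_right _ (by positivity)
  have e : ∑ i ∈ Finset.range k, 1 / (2 * (8 * (i:ℝ) + 8)) =
      (∑ i ∈ Finset.range k, (1 / ((i:ℝ) + 1))) / 16 := by
    rw [Finset.sum_div]
    apply Finset.sum_congr rfl
    intro i _
    have : (i:ℝ) + 1 ≠ 0 := by positivity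
    rw [div_div]
    congr 1
    ring
  rw [e, le_div_iff₀ (by norm_num)]
  linarith

end H516.GTQ1
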