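import Pool.Agent.H516.GTQ1.Game
import Pool.Agent.R109.GT.DD

/-! The recurrent points of a generalized Takagi function have a null image. -/

open MeasureTheory Set Filter Topology
open scoped ENNReal

namespace H516.GTQ1

open R109.GT

/-- the occupation measure on `[0,1)` -/
noncomputable def occ (w : ℕ → ℤ → ℤ) : Measure ℝ :=
  Measure.map (tak w) (volume.restrict (Ico (0:ℝ) 1))

instance (w : ℕ → ℤ → ℤ) : IsFiniteMeasure (occ w) := by
  unfold occ; infer_instance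

theorem occ_ball (w : ℕ → ℤ → ℤ) (hw : Sgn w) (T : ℕ) (H : ℝ) (hH : 0 ≤ H) (hQ : Q T H)
    (x : ℝ) (hx : x ∈ Ico (0:ℝ) 1) (n : ℕ) (hn : S w n x = 0) :
    ∃ (c : ℝ) (r : ℝ), 0 < r ∧ r ≤ 2 / 2 ^ n ∧ |tak w x - c| ≤ 2 ^ T * r ∧
      ENNReal.ofReal (H / 4) * volume (Metric.closedBall c r) ≤ occ w (Metric.closedBall c r) := by
  have hp : (0:ℝ) < 2 ^ n := by positivity
  set i : ℤ := ⌊(2:ℝ) ^ n * x⌋ with hi
  have hs : slope w n i = 0 := hn
  obtain ⟨y, hy, t, ht, hv⟩ := hQ (fun m => w (n + m)) (fun m k => hw (n + m) k) i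
  have hscale := scale_vol w hw n i hs y (2 / 2 ^ t)
  have hpt : (0:ℝ) < 2 ^ t := by positivity
  refine ⟨(val w n i + y) / 2 ^ n, 2 / 2 ^ t / 2 ^ n, by positivity, ?_, ?_, ?_⟩
  · apply div_le_div_of_nonneg_right _ hp.le
    rw [div_le_iff₀ hpt]
    have : (1:ℝ) ≤ 2 ^ t := one_le_pow₀ (by norm_num)
    linarith
  · rw [tak_eq w hw n x, hn, ← hi, Int.cast_zero, zero_mul, add_zero, ← sub_div, abs_div,
      abs_of_pos hp, ← mul_div_assoc]
    apply div_le_div_of_nonneg_right _ hp.le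
    have hb := bound (fun m => w (n + m)) (fun m k => hw (n + m) k) ((2:ℝ) ^ n * x)
    have hT : (2:ℝ) ≤ 2 ^ T * (2 / 2 ^ t) := by
      rw [← mul_div_assoc, le_div_iff₀ hpt]
      have : (2:ℝ) ^ t ≤ 2 ^ T := pow_le_pow_right₀ (by norm_num) ht
      linarith
    rw [abs_le] at hb hy ⊢
    constructor <;> linarith
  · have hsub : B w n i ((val w n i + y) / 2 ^ n) (2 / 2 ^ t / 2 ^ n) ⊆
        tak w ⁻¹' (Metric.closedBall ((val w n i + y) / 2 ^ n) (2 / 2 ^ t / 2 ^ n)) ∩ Ico 0 1 := by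
      rintro z ⟨hz1, hz2⟩
      refine ⟨?_, ?_⟩
      · rw [mem_preimage, Metric.mem_closedBall, Real.dist_eq]
        exact hz2
      · have hz1' : ⌊(2:ℝ) ^ n * z⌋ = i := hz1
        have e1 := floor_div 0 n z
        have e2 := floor_div 0 n x
        rw [zero_add, hz1'] at e1
        rw [zero_add, ← hi] at e2
        have e3 : ⌊(2:ℝ) ^ 0 * x⌋ = 0 := by
          rw [pow_zero, one_mul, Int.floor_eq_zero_iff]; exact hx
        have e4 : ⌊(2:ℝ) ^ 0 * z⌋ = 0 := by rw [e1, ← e2, e3]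
        rw [pow_zero, one_mul, Int.floor_eq_zero_iff] at e4
        exact e4
    have hocc : occ w (Metric.closedBall ((val w n i + y) / 2 ^ n) (2 / 2 ^ t / 2 ^ n)) =
        volume (tak w ⁻¹' (Metric.closedBall ((val w n i + y) / 2 ^ n) (2 / 2 ^ t / 2 ^ n)) ∩
          Ico 0 1) := by
      unfold occ
      rw [Measure.map_apply (cont w hw).measurable Metric.isClosed_closedBall.measurableSet,
        Measure.restrict_apply ((cont w hw).measurable Metric.isClosed_closedBall.measurableSet)]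
    rw [hocc]
    refine le_trans ?_ (measure_mono hsub)
    rw [hscale, Real.volume_closedBall, ← ENNReal.ofReal_mul (by positivity)]
    calc ENNReal.ofReal (H / 4 * (2 * (2 / 2 ^ t / 2 ^ n)))
        = ENNReal.ofReal (1 / 2 ^ n) * ENNReal.ofReal (H / 2 ^ t) := by
          rw [← ENNReal.ofReal_mul (by positivity)]
          congr 1
          field_simp
          ring
      _ ≤ _ := by gcongr

theorem ae_ge (w : ℕ → ℤ → ℤ) (hw : Sgn w) (H : ℝ) (hH : 0 ≤ H) :
    ∀ᵐ y ∂(volume : Measure ℝ), y ∈ tak w '' (Z w ∩ Ico 0 1) →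
      ENNReal.ofReal (H / 4) ≤ (occ w).rnDeriv volume y := by
  obtain ⟨T, hQ⟩ := Q_unbounded H
  have hv := VitaliFamily.ae_tendsto_rnDeriv
    (IsUnifLocDoublingMeasure.vitaliFamily (volume : Measure ℝ) ((2:ℝ) ^ T)) (occ w)
  filter_upwards [hv] with y hy hyZ
  obtain ⟨x, ⟨hxZ, hxI⟩, rfl⟩ := hyZ
  by_contra hcon
  push Not at hcon
  have hfr : ∃ᶠ n in atTop, S w n x = 0 := hxZ
  have hne : (atTop ⊓ 𝓟 {n : ℕ | S w n x = 0}).NeBot := by
    rw [← frequently_mem_iff_neBot]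
    exact hfr
  classical
  have hch : ∀ n : ℕ, ∃ cr : ℝ × ℝ, S w n x = 0 → (0 < cr.2 ∧ cr.2 ≤ 2 / 2 ^ n ∧
      |tak w x - cr.1| ≤ 2 ^ T * cr.2 ∧
      ENNReal.ofReal (H / 4) * volume (Metric.closedBall cr.1 cr.2) ≤
        occ w (Metric.closedBall cr.1 cr.2)) := by
    intro n
    by_cases hn : S w n x = 0
    · obtain ⟨c, r, h1, h2, h3, h4⟩ := occ_ball w hw T H hH hQ x hxI n hn
      exact ⟨(c, r), fun _ => ⟨h1, h2, h3, h4⟩⟩
    · exact ⟨(0, 0), fun h => absurd h hn⟩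
  choose cr hcr using hch
  have hev : ∀ᶠ n in atTop ⊓ 𝓟 {n : ℕ | S w n x = 0}, S w n x = 0 := by
    have : {n : ℕ | S w n x = 0} ∈ atTop ⊓ 𝓟 {n : ℕ | S w n x = 0} :=
      mem_inf_of_right (mem_principal_self _)
    exact this
  have hlim0 : Tendsto (fun n : ℕ => (2:ℝ) / 2 ^ n) atTop (𝓝 0) := by
    have h1 : Tendsto (fun m : ℕ => (1 / 2 : ℝ) ^ m) atTop (𝓝 0) :=
      tendsto_pow_atTop_nhds_zero_of_lt_one (by norm_num) (by norm_num)
    have h2 := h1.const_mul (2:ℝ)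
    rw [mul_zero] at h2
    refine h2.congr (fun m => ?_)
    rw [one_div_pow, mul_one_div]
  have hδ : Tendsto (fun n => (cr n).2) (atTop ⊓ 𝓟 {n : ℕ | S w n x = 0}) (𝓝[>] 0) := by
    rw [tendsto_nhdsWithin_iff]
    refine ⟨?_, ?_⟩
    · refine tendsto_of_tendsto_of_tendsto_of_le_of_le' tendsto_const_nhds
        (hlim0.mono_left inf_le_left) ?_ ?_
      · filter_upwards [hev] with n hn using (hcr n hn).1.le
      · filter_upwards [hev] with n hn using (hcr n hn).2.1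
    · filter_upwards [hev] with n hn using (hcr n hn).1
  have hmem : ∀ᶠ n in atTop ⊓ 𝓟 {n : ℕ | S w n x = 0},
      tak w x ∈ Metric.closedBall ((cr n).1) ((2:ℝ) ^ T * (cr n).2) := by
    filter_upwards [hev] with n hn
    rw [Metric.mem_closedBall, Real.dist_eq]
    exact (hcr n hn).2.2.1
  have htf := IsUnifLocDoublingMeasure.tendsto_closedBall_filterAt (μ := (volume : Measure ℝ))
    (K := (2:ℝ) ^ T) (fun n => (cr n).1) (fun n => (cr n).2) hδ hmem
  have hlim := hy.comp htf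
  have hlt := hlim.eventually_lt_const hcon
  obtain ⟨n, hn1, hn2⟩ := (hlt.and hev).exists
  have h4 := (hcr n hn2).2.2.2
  have hr0 := (hcr n hn2).1
  have hvol0 : volume (Metric.closedBall (cr n).1 (cr n).2) ≠ 0 := by
    rw [Real.volume_closedBall]
    simp [hr0]
  have hvolt : volume (Metric.closedBall (cr n).1 (cr n).2) ≠ ∞ := by
    rw [Real.volume_closedBall]
    exact ENNReal.ofReal_ne_top
  have h5 : ENNReal.ofReal (H / 4) ≤ occ w (Metric.closedBall (cr n).1 (cr n).2) /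
      volume (Metric.closedBall (cr n).1 (cr n).2) := by
    rw [ENNReal.le_div_iff_mul_le (Or.inl hvol0) (Or.inl hvolt)]
    exact h4
  exact absurd hn1 (not_lt.mpr h5)

theorem null (w : ℕ → ℤ → ℤ) (hw : Sgn w) : volume (tak w '' (Z w ∩ Ico 0 1)) = 0 := by
  rw [measure_eq_zero_iff_ae_notMem]
  have h1 : ∀ᵐ y ∂(volume : Measure ℝ), ∀ H : ℕ, y ∈ tak w '' (Z w ∩ Ico 0 1) →
      ENNReal.ofReal ((H:ℝ) / 4) ≤ (occ w).rnDeriv volume y := by
    rw [ae_all_iff]
    intro H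
    exact ae_ge w hw H (Nat.cast_nonneg _)
  have h2 := Measure.rnDeriv_lt_top (occ w) (volume : Measure ℝ)
  filter_upwards [h1, h2] with y hy1 hy2 hyZ
  have h3 := fun H : ℕ => hy1 H hyZ
  obtain ⟨H, hH⟩ := exists_nat_gt (4 * ((occ w).rnDeriv volume y).toReal)
  have h4 := h3 H
  rw [ENNReal.ofReal_le_iff_le_toReal hy2.ne] at h4
  linarith

end H516.GTQ1
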